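import Pool.Agent.Lib.Pa76659G.GhZ

/-!
The low and the high hierarchy relative to generic oracles.
-/

namespace Pool.Agent.Results.MP_a76659_lc.GenericBoth

open Pool.Agent.Lib.Pa76659 Pool.Agent.Lib.Pa76659G
open Pool.Agent.Lib.Pa76659H (High RHighSucc)

/-- (1) For every base oracle `Y` and comeager many oracles `G`, relative to `X = Y ⊕ G`: the
polynomial hierarchy is infinite, `L_1 ⊂ \hat L_2 ⊂ L_2 ⊂ \hat L_3 ⊂ L_3` are proper,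
`L_3 = \hat L_4 = L_4 = \hat L_5 = …`; a set in `NP` is in `L_1`, `\hat L_2`, `L_2`, `L_3` if and
only if its complement is in `NP`, in `NP` with advice computable in `FP^NP`, in `NP` with advice
checkable in `coNP`, in `NP/poly`; `\hat H_1 ⊂ H_1 ⊂ \hat H_2 ⊂ H_2` are proper; and if one of the
inclusions `\hat L_1 ⊂ L_1`, `H_k ⊂ \hat H_{k+1}`, `\hat H_{k+1} ⊂ H_{k+1}` is proper relative to
`Y`, then it is proper relative to `X`.

(2) There is a base oracle `Y` such that, for comeager many oracles `G`, relative to `X = Y ⊕ G`,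
all the inclusions `\hat H_k ⊂ H_k`, `H_k ⊂ \hat H_{k+1}` (`k ≥ 1`) and `\hat L_1 ⊂ L_1` are proper
as well. -/
theorem result :
    (∀ Y : Lang, ∀ᶠ G in residual Lang, ∀ X, X = join Y G →
      ((∀ k, Sig X k ≠ Sig X (k + 1)) ∧
        Low X 1 ⊂ RLowSucc X 1 ∧ RLowSucc X 1 ⊂ Low X 2 ∧ Low X 2 ⊂ RLowSucc X 2 ∧
        RLowSucc X 2 ⊂ Low X 3 ∧
        (∀ k, 3 ≤ k → Low X k = RLowSucc X k ∧ RLowSucc X k = Low X (k + 1)) ∧
        Low X 1 = {A | A ∈ NPO X ∧ (fun x => !(A x)) ∈ NPO X} ∧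
        RLowSucc X 1 = {A | A ∈ NPO X ∧ (fun x => !(A x)) ∈ NPAdv X 1} ∧
        Low X 2 = {A | A ∈ NPO X ∧ (fun x => !(A x)) ∈ NPChk X} ∧
        Low X 3 = {A | A ∈ NPO X ∧ (fun x => !(A x)) ∈ NPPoly X}) ∧
      (RHighSucc X 0 ⊂ High X 1 ∧ High X 1 ⊂ RHighSucc X 1 ∧ RHighSucc X 1 ⊂ High X 2) ∧
      (RLowSucc Y 0 ⊂ Low Y 1 → RLowSucc X 0 ⊂ Low X 1) ∧
      (∀ k, High Y k ⊂ RHighSucc Y k → High X k ⊂ RHighSucc X k) ∧
      ∀ k, RHighSucc Y k ⊂ High Y (k + 1) → RHighSucc X k ⊂ High X (k + 1)) ∧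
    ∃ Y : Lang, ∀ᶠ G in residual Lang, ∀ X, X = join Y G →
      (∀ k, RHighSucc X k ⊂ High X (k + 1)) ∧ (∀ k, High X (k + 1) ⊂ RHighSucc X (k + 1)) ∧
      RLowSucc X 0 ⊂ Low X 1 := by
  refine ⟨Gh.generic_strict, ?_⟩
  obtain ⟨Y, hY⟩ := Tr.exists_base Tr.gate_AG
  refine ⟨Y, hY.mono fun G h X hX => ?_⟩
  obtain ⟨-, h1, h2, h3, -⟩ := h X hX
  exact ⟨h1, h2, h3 0 (by norm_num)⟩

end Pool.Agent.Results.MP_a76659_lc.GenericBoth
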