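import Pool.Agent.Lib.Pa76659L.FinalL

/-!
Every pattern of proper inclusions and equalities in the chain
`\hat L_1 ⊆ L_1 ⊆ \hat L_2 ⊆ L_2 ⊆ ...` of the refined low hierarchy is realised, relative to some
oracle, together with an infinite polynomial hierarchy: for all sets `A`, `B` of natural numbers
there is an oracle relative to which the polynomial hierarchy is infinite, the inclusion
`L_{k+1} ⊆ \hat L_{k+2}` is proper for the `k` in `A` and an equality for the others, and the
inclusion `\hat L_{k+1} ⊆ L_{k+1}` is proper for the `k` in `B` and an equality for the others.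
-/

namespace Pool.Agent.Results.MP_a76659_lc.LowPatterns

open Pool.Agent.Lib.Pa76659 Pool.Agent.Lib.Pa76659O Pool.Agent.Lib.Pa76659L

theorem result : ∀ A B : Set ℕ, ∃ X : Lang, (∀ k, Sig X k ≠ Sig X (k + 1)) ∧
    (∀ k, (k ∈ A → Low X (k + 1) ⊂ RLowSucc X (k + 1)) ∧
      (k ∉ A → Low X (k + 1) = RLowSucc X (k + 1))) ∧
    (∀ k, (k ∈ B → RLowSucc X k ⊂ Low X (k + 1)) ∧
      (k ∉ B → RLowSucc X k = Low X (k + 1))) := by
  intro A B
  obtain ⟨X, h1, h2⟩ := lowPatterns {m | (m % 2 = 1 ∧ m / 2 ∈ A) ∨ (m % 2 = 0 ∧ m / 2 ∈ B)}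
  refine ⟨X, h1, fun k => ?_, fun k => ?_⟩
  · have h3 := h2 (2 * k + 1)
    have e1 : (2 * k + 1) / 2 = k := by omega
    have e2 : (2 * k + 1) % 2 = 1 := by omega
    simp only [Set.mem_setOf_eq, e1, e2, true_and, one_ne_zero, false_and, or_false] at h3
    rw [show 2 * k + 1 + 1 = 2 * (k + 1) by ring, chn_even, chn_odd] at h3
    exact ⟨fun h => low_rlow.ssubset_of_ne (h3.2 h), fun h => by
      by_contra hne
      exact h (h3.1 hne)⟩
  · have h3 := h2 (2 * k)
    have e1 : (2 * k) / 2 = k := by omega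
    have e2 : (2 * k) % 2 = 0 := by omega
    simp only [Set.mem_setOf_eq, e1, e2, true_and, zero_ne_one, false_and, false_or] at h3
    rw [chn_even, chn_odd] at h3
    exact ⟨fun h => rlow_low.ssubset_of_ne (h3.2 h), fun h => by
      by_contra hne
      exact h (h3.1 hne)⟩

end Pool.Agent.Results.MP_a76659_lc.LowPatterns
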