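import Pool.Agent.Lib.Pa76659T.Fin
import Pool.Agent.Lib.Pa76659G.UoV

/-!
The refined low and high hierarchies relative to tally oracles, from an infinite polynomial hierarchy.
-/

namespace Pool.Agent.Results.MP_a76659_lc.TallyWorld

open Pool.Agent.Lib.Pa76659 Pool.Agent.Lib.Pa76659G Pool.Agent.Lib.Pa76659T
open Pool.Agent.Lib.Pa76659H (High RHighSucc)

/-- (I) If the (unrelativised) polynomial hierarchy is infinite then there is a tally oracle `T` with
an infinite polynomial hierarchy relative to `T` and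
`\hat L_1 ⊂ L_1 ⊂ \hat L_2 ⊂ L_2 ⊂ \hat L_3`, `\hat H_1 ⊂ H_1` relative to `T`.
(II) For every oracle `X` there is one tally oracle `T` such that, relative to `X ⊕ T`:
`\hat L_1 = L_1` or `\hat H_1 = H_1` only if `P(X) = NP(X)`; `L_1 = \hat L_2` only if
`NP(X) = coNP(X)`; `\hat L_2 = L_2` or `L_2 = \hat L_3` only if `Σ_4(X) = Σ_5(X)`.
(III) For all oracles `X`: tally oracles `T` do not change whether the hierarchy is infinite;
`\hat L_1 = L_1` relative to `X ⊕ T` for all tally `T` iff `P(X) = NP(X)`, the same for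
`\hat H_1 = H_1`; `L_1 = \hat L_2` relative to `X ⊕ T` for all tally `T` iff `NP(X) = coNP(X)`.
(IV) For all oracles `X`, without tally oracle: `L_1 = \hat L_2` implies `E^NP = NE`; `\hat L_2 = L_2`
implies that the functions `1^n ↦ u(n)` of polynomial length with graph in `coNP` are in `FP^NP`;
`L_2 = \hat L_3` implies that polynomially many `coNP` witnesses of `1^n` can be counted in `Σ_2`. -/
theorem result :
    ((∀ k, Sig emp k ≠ Sig emp (k + 1)) → ∃ T : Lang, Tally T ∧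
      (∀ k, Sig T k ≠ Sig T (k + 1)) ∧
      RLowSucc T 0 ⊂ Low T 1 ∧ Low T 1 ⊂ RLowSucc T 1 ∧ RLowSucc T 1 ⊂ Low T 2 ∧
      Low T 2 ⊂ RLowSucc T 2 ∧ RHighSucc T 0 ⊂ High T 1) ∧
    ∀ X : Lang,
      (∃ T : Lang, Tally T ∧
        (RLowSucc (join X T) 0 = Low (join X T) 1 ∨ RHighSucc (join X T) 0 = High (join X T) 1 →
          PO X = NPO X) ∧
        (Low (join X T) 1 = RLowSucc (join X T) 1 → ∀ L ∈ NPO X, (fun x => !(L x)) ∈ NPO X) ∧
        (RLowSucc (join X T) 1 = Low (join X T) 2 ∨ Low (join X T) 2 = RLowSucc (join X T) 2 →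
          Sig X 4 = Sig X 5)) ∧
      (∀ T, Tally T →
        ((∀ k, Sig (join X T) k ≠ Sig (join X T) (k + 1)) ↔ ∀ k, Sig X k ≠ Sig X (k + 1))) ∧
      ((∀ T, Tally T → RLowSucc (join X T) 0 = Low (join X T) 1) ↔ PO X = NPO X) ∧
      ((∀ T, Tally T → RHighSucc (join X T) 0 = High (join X T) 1) ↔ PO X = NPO X) ∧
      ((∀ T, Tally T → Low (join X T) 1 = RLowSucc (join X T) 1) ↔
        ∀ L ∈ NPO X, (fun x => !(L x)) ∈ NPO X) ∧
      (Low X 1 = RLowSucc X 1 → ENP X = NEO X) ∧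
      (RLowSucc X 1 = Low X 2 →
        ∀ (q : Polynomial ℕ) (u : ℕ → Str), (∀ n, (u n).length = q.eval n) →
          (∃ A ∈ NPO X, ∀ (n : ℕ) (v : Str), v.length = q.eval n →
            (A (pr (on1 n) v) = false ↔ v = u n)) →
          ∃ B ∈ NPO X, ∃ f ∈ FPO B, ∀ n, f (on1 n) = u n) ∧
      (Low X 2 = RLowSucc X 2 → ∀ A ∈ NPO X, ∀ q s : Polynomial ℕ,
        (∀ n, {y : Str | y.length = q.eval n ∧ A (pr (on1 n) y) = false}.ncard ≤ s.eval n) →
        ∃ B ∈ Sig X 2, ∀ n k : ℕ, B (pr (on1 n) (on1 k)) = true ↔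
          {y : Str | y.length = q.eval n ∧ A (pr (on1 n) y) = false}.ncard < k) := by
  have hsub : ∀ X : Lang, NPO X ⊆ PO X ↔ PO X = NPO X := fun X =>
    ⟨fun h => (PO_subset_NPO X).antisymm h, fun h => h.symm.subset⟩
  refine ⟨tally_emp, fun X => ⟨?_, fun T hT => ⟨fun h k hk => h k (tally_sig hT hk),
    tally_inf hT⟩, (exact_low X).trans (hsub X), (exact_high X).trans (hsub X), exact_one X,
    Circ.ENP_eq, fun h => ((cost_two X).2.1 h).1,
    fun h _ hA q s hs => Uo.u6 h.symm.subset hA q s hs⟩⟩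
  obtain ⟨T, hT, h1, h2, h3, h4, h5⟩ := tally_world X
  exact ⟨T, hT, fun h => h.elim (fun h => (h3 h).symm) (fun h => (h1 h.symm).symm), h2,
    fun h => h.elim h4 h5⟩

end Pool.Agent.Results.MP_a76659_lc.TallyWorld
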