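import Pool.Agent.Lib.Pa76659P.PLim
import Pool.Agent.Lib.Pa76659P.Member
import Pool.Agent.Lib.Pa76659B.Main2

/-!
Relativising arguments decide neither Q1 nor Q2, in either direction. There is an oracle relative
to which the polynomial hierarchy is infinite and every inclusion of Q1 and of Q2 is proper, and
there is an oracle relative to which the polynomial hierarchy is infinite and every class
`L_k`, `\hat L_k` is `P` while every class `H_k`, `\hat H_k` consists of the Turing complete sets of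
`NP` only, so that every inclusion of Q1 and of Q2 is an equality.
-/

namespace Pool.Agent.Results.MP_a76659_lc.TwoWorlds

open Pool.Agent.Lib.Pa76659 Pool.Agent.Lib.Pa76659H

theorem result :
    (∃ X : Lang, (∀ k, Sig X k ≠ Sig X (k + 1)) ∧
      (∀ k, Low X (k + 1) ⊂ RLowSucc X (k + 1)) ∧ (∀ k, RLowSucc X k ⊂ Low X (k + 1)) ∧
      (∀ k, High X (k + 1) ⊂ RHighSucc X (k + 1)) ∧ (∀ k, RHighSucc X k ⊂ High X (k + 1))) ∧
    (∃ X : Lang, (∀ k, Sig X k ≠ Sig X (k + 1)) ∧
      (∀ k, Low X k = PO X) ∧ (∀ k, RLowSucc X k = PO X) ∧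
      (∀ k, High X k = TComp X) ∧ (∀ k, RHighSucc X k = TComp X)) := by
  refine ⟨?_, Pool.Agent.Lib.Pa76659B.bothCollapse⟩
  obtain ⟨Bp, X, hX⟩ := Pool.Agent.Lib.Pa76659P.exists_spec
  exact ⟨X, Pool.Agent.Lib.Pa76659P.allProper_of_spec hX⟩

end Pool.Agent.Results.MP_a76659_lc.TwoWorlds
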